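import Mathlib

/-!
# Balancing unit vectors: dependent subfamilies

If unit vectors `v 0, …, v (n-1)` contain `r` pairwise disjoint linearly dependent subfamilies, then
some signed sum has squared norm at most `n - 2 r`. In particular the parity conjecture holds for
`n ≤ d + 1`, in every dimension `d`.

The main step is the case `r = 1` for the whole family: if `∑ w i • v i = 0` with `w ≠ 0`, then the
average of `‖∑ η i • v i‖²` over all signings, weighted by `(∑ w i * η i)²`, is exactly `n - 2`.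
-/

set_option autoImplicit false

namespace Pool.Agent.Results.MP_1be6c9_co.DependentFamilies

open Finset

variable {E : Type*} [NormedAddCommGroup E] [InnerProductSpace ℝ E]

/-- The sign of a Boolean. -/
def sg (b : Bool) : ℝ := if b then 1 else -1

lemma sg_mul_self (b : Bool) : sg b * sg b = 1 := by cases b <;> simp [sg]

lemma sg_not (b : Bool) : sg (!b) = -sg b := by cases b <;> simp [sg]

variable {ι : Type*} [Fintype ι] [DecidableEq ι]

/-- flipping one coordinate -/
def flip (i : ι) (η : ι → Bool) : ι → Bool := Function.update η i (!(η i))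

lemma flip_flip (i : ι) (η : ι → Bool) : flip i (flip i η) = η := by
  unfold flip
  simp

def flipEquiv (i : ι) : (ι → Bool) ≃ (ι → Bool) :=
  ⟨flip i, flip i, flip_flip i, flip_flip i⟩

lemma flip_self (i : ι) (η : ι → Bool) : flip i η i = !(η i) := by simp [flip]

lemma flip_ne {i j : ι} (h : j ≠ i) (η : ι → Bool) : flip i η j = η j := by simp [flip, h]

/-- If a function changes sign under a flip, then its sum is zero. -/
lemma sum_eq_zero_of_flip (i : ι) (f : (ι → Bool) → ℝ) (h : ∀ η, f (flip i η) = -f η) :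
    ∑ η, f η = 0 := by
  have h1 : ∑ η, f η = ∑ η, f (flip i η) := ((flipEquiv i).sum_comp f).symm
  have h2 : ∑ η, f (flip i η) = -∑ η, f η := by
    rw [← Finset.sum_neg_distrib]
    exact Finset.sum_congr rfl fun η _ => h η
  linarith

/-- second moments -/
lemma moment2 {i j : ι} (hij : i ≠ j) : ∑ η : ι → Bool, sg (η i) * sg (η j) = 0 := by
  apply sum_eq_zero_of_flip i
  intro η
  rw [flip_self, flip_ne (Ne.symm hij), sg_not]
  ring

/-- the weighted moments `∑ (∑ w η)² η_i η_j` -/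
lemma moment4 (w : ι → ℝ) {i j : ι} (hij : i ≠ j) :
    ∑ η : ι → Bool, (∑ k, w k * sg (η k)) ^ 2 * (sg (η i) * sg (η j)) =
      (Fintype.card (ι → Bool) : ℝ) * (2 * (w i * w j)) := by
  have h1 : ∀ η : ι → Bool, (∑ k, w k * sg (η k)) ^ 2 * (sg (η i) * sg (η j)) =
      ∑ k, ∑ l, w k * w l * (sg (η k) * sg (η l) * (sg (η i) * sg (η j))) := by
    intro η
    rw [pow_two, Finset.sum_mul_sum, Finset.sum_mul]
    refine Finset.sum_congr rfl fun k _ => ?_
    rw [Finset.sum_mul]
    refine Finset.sum_congr rfl fun l _ => ?_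
    ring
  simp_rw [h1]
  rw [Finset.sum_comm]
  have h2 : ∀ k, ∑ η : ι → Bool, ∑ l, w k * w l * (sg (η k) * sg (η l) * (sg (η i) * sg (η j))) =
      ∑ l, w k * w l * ∑ η : ι → Bool, (sg (η k) * sg (η l) * (sg (η i) * sg (η j))) := by
    intro k
    rw [Finset.sum_comm]
    refine Finset.sum_congr rfl fun l _ => ?_
    rw [Finset.mul_sum]
  simp_rw [h2]
  have h3 : ∀ k l, ∑ η : ι → Bool, (sg (η k) * sg (η l) * (sg (η i) * sg (η j))) =
      if (k = i ∧ l = j) ∨ (k = j ∧ l = i) then (Fintype.card (ι → Bool) : ℝ) else 0 := by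
    intro k l
    split_ifs with h
    · rcases h with ⟨rfl, rfl⟩ | ⟨rfl, rfl⟩
      · have : ∀ η : ι → Bool, sg (η k) * sg (η l) * (sg (η k) * sg (η l)) = 1 := by
          intro η
          have := sg_mul_self (η k)
          have := sg_mul_self (η l)
          nlinarith
        simp_rw [this]
        simp
      · have : ∀ η : ι → Bool, sg (η k) * sg (η l) * (sg (η l) * sg (η k)) = 1 := by
          intro η
          have h1 := sg_mul_self (η k)
          have h2 := sg_mul_self (η l)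
          calc sg (η k) * sg (η l) * (sg (η l) * sg (η k)) =
                (sg (η k) * sg (η k)) * (sg (η l) * sg (η l)) := by ring
            _ = 1 := by rw [h1, h2, one_mul]
        simp_rw [this]
        simp
    · push Not at h
      by_cases hkl : k = l
      · subst hkl
        have : ∀ η : ι → Bool, sg (η k) * sg (η k) * (sg (η i) * sg (η j)) =
            sg (η i) * sg (η j) := by
          intro η
          rw [sg_mul_self, one_mul]
        simp_rw [this]
        exact moment2 hij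
      · -- some index occurs exactly once
        by_cases hki : k = i
        · subst hki
          have hlj : l ≠ j := h.1 rfl
          apply sum_eq_zero_of_flip l
          intro η
          rw [flip_self, flip_ne hkl, flip_ne (Ne.symm hlj), sg_not]
          ring
        · by_cases hkj : k = j
          · subst hkj
            have hli : l ≠ i := h.2 rfl
            apply sum_eq_zero_of_flip l
            intro η
            rw [flip_self, flip_ne hkl, flip_ne (Ne.symm hli), sg_not]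
            ring
          · apply sum_eq_zero_of_flip k
            intro η
            rw [flip_self, flip_ne (Ne.symm hkl), flip_ne (Ne.symm hki), flip_ne (Ne.symm hkj),
              sg_not]
            ring
  have h4 : ∀ k l, (if (k = i ∧ l = j) ∨ (k = j ∧ l = i) then
      (Fintype.card (ι → Bool) : ℝ) else 0) =
      (if k = i then (if l = j then (Fintype.card (ι → Bool) : ℝ) else 0) else 0) +
      (if k = j then (if l = i then (Fintype.card (ι → Bool) : ℝ) else 0) else 0) := by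
    intro k l
    by_cases hki : k = i
    · subst hki
      by_cases hlj : l = j
      · subst hlj
        simp [hij]
      · simp [hij, hlj]
    · by_cases hkj : k = j
      · subst hkj
        by_cases hli : l = i
        · subst hli
          simp [hki]
        · simp [hki, hli]
      · simp [hki, hkj]
  simp_rw [h3, h4, mul_add, Finset.sum_add_distrib]
  simp only [mul_ite, mul_zero]
  have h5 : ∀ a b : ι, ∑ k, ∑ l, (if k = a then (if l = b then
      w k * w l * (Fintype.card (ι → Bool) : ℝ) else 0) else 0) =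
      w a * w b * (Fintype.card (ι → Bool) : ℝ) := by
    intro a b
    rw [Finset.sum_eq_single a]
    · simp
    · intro k _ hk
      simp [hk]
    · simp
  rw [h5 i j, h5 j i]
  ring

/-- the total weight -/
lemma momentW (w : ι → ℝ) :
    ∑ η : ι → Bool, (∑ k, w k * sg (η k)) ^ 2 =
      (Fintype.card (ι → Bool) : ℝ) * ∑ k, w k ^ 2 := by
  have h1 : ∀ η : ι → Bool, (∑ k, w k * sg (η k)) ^ 2 =
      ∑ k, ∑ l, w k * w l * (sg (η k) * sg (η l)) := by
    intro η
    rw [pow_two, Finset.sum_mul_sum]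
    refine Finset.sum_congr rfl fun k _ => Finset.sum_congr rfl fun l _ => ?_
    ring
  simp_rw [h1]
  rw [Finset.sum_comm, Finset.mul_sum]
  refine Finset.sum_congr rfl fun k _ => ?_
  rw [Finset.sum_comm, Finset.sum_eq_single k]
  · rw [← Finset.mul_sum]
    have : ∀ η : ι → Bool, sg (η k) * sg (η k) = 1 := fun η => sg_mul_self _
    simp_rw [this]
    simp
    ring
  · intro l _ hl
    rw [← Finset.mul_sum, moment2 (Ne.symm hl), mul_zero]
  · simp

/-- the squared norm of a signed sum, expanded -/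
lemma norm_expand (v : ι → E) (η : ι → Bool) :
    ‖∑ i, sg (η i) • v i‖ ^ 2 = ∑ i, ∑ j, inner ℝ (v i) (v j) * (sg (η i) * sg (η j)) := by
  rw [← real_inner_self_eq_norm_sq, sum_inner]
  refine Finset.sum_congr rfl fun i _ => ?_
  rw [inner_sum]
  refine Finset.sum_congr rfl fun j _ => ?_
  rw [inner_smul_left, inner_smul_right]
  simp
  ring

/-- The weighted average of the squared norms. -/
lemma weighted (v : ι → E) (hv : ∀ i, ‖v i‖ = 1) (w : ι → ℝ) (hw : ∑ i, w i • v i = 0) :
    ∑ η : ι → Bool, (∑ k, w k * sg (η k)) ^ 2 * ‖∑ i, sg (η i) • v i‖ ^ 2 =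
      (Fintype.card (ι → Bool) : ℝ) * (∑ k, w k ^ 2) * ((Fintype.card ι : ℝ) - 2) := by
  set C : ℝ := (Fintype.card (ι → Bool) : ℝ) with hC
  have hww : ∑ i, ∑ j, inner ℝ (v i) (v j) * (w i * w j) = 0 := by
    have h : ‖∑ i, w i • v i‖ ^ 2 = ∑ i, ∑ j, inner ℝ (v i) (v j) * (w i * w j) := by
      rw [← real_inner_self_eq_norm_sq, sum_inner]
      refine Finset.sum_congr rfl fun i _ => ?_
      rw [inner_sum]
      refine Finset.sum_congr rfl fun j _ => ?_
      rw [inner_smul_left, inner_smul_right]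
      simp
      ring
    rw [← h, hw]
    simp
  have h1 : ∀ η : ι → Bool, (∑ k, w k * sg (η k)) ^ 2 * ‖∑ i, sg (η i) • v i‖ ^ 2 =
      ∑ i, ∑ j, inner ℝ (v i) (v j) * ((∑ k, w k * sg (η k)) ^ 2 * (sg (η i) * sg (η j))) := by
    intro η
    rw [norm_expand, Finset.mul_sum]
    refine Finset.sum_congr rfl fun i _ => ?_
    rw [Finset.mul_sum]
    refine Finset.sum_congr rfl fun j _ => ?_
    ring
  simp_rw [h1]
  rw [Finset.sum_comm]
  have h2 : ∀ i, ∑ η : ι → Bool, ∑ j, inner ℝ (v i) (v j) *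
      ((∑ k, w k * sg (η k)) ^ 2 * (sg (η i) * sg (η j))) =
      ∑ j, inner ℝ (v i) (v j) * ∑ η : ι → Bool,
        ((∑ k, w k * sg (η k)) ^ 2 * (sg (η i) * sg (η j))) := by
    intro i
    rw [Finset.sum_comm]
    refine Finset.sum_congr rfl fun j _ => ?_
    rw [Finset.mul_sum]
  simp_rw [h2]
  have h3 : ∀ i j, ∑ η : ι → Bool, ((∑ k, w k * sg (η k)) ^ 2 * (sg (η i) * sg (η j))) =
      C * (2 * (w i * w j)) + (if i = j then C * (∑ k, w k ^ 2) - C * (2 * (w i * w i)) else 0) := by
    intro i j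
    by_cases hij : i = j
    · subst hij
      have : ∀ η : ι → Bool, (∑ k, w k * sg (η k)) ^ 2 * (sg (η i) * sg (η i)) =
          (∑ k, w k * sg (η k)) ^ 2 := by
        intro η
        rw [sg_mul_self, mul_one]
      simp_rw [this]
      rw [momentW]
      simp only [if_true]
      rw [hC]
      ring
    · rw [moment4 w hij, if_neg hij, add_zero]
  simp_rw [h3, mul_add, Finset.sum_add_distrib]
  have h4 : ∑ i, ∑ j, inner ℝ (v i) (v j) * (C * (2 * (w i * w j))) = 0 := by
    have : ∀ i j, inner ℝ (v i) (v j) * (C * (2 * (w i * w j))) =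
        (C * 2) * (inner ℝ (v i) (v j) * (w i * w j)) := by
      intro i j
      ring
    simp_rw [this, ← Finset.mul_sum]
    rw [hww, mul_zero]
  have h5 : ∀ i, ∑ j, inner ℝ (v i) (v j) *
      (if i = j then C * (∑ k, w k ^ 2) - C * (2 * (w i * w i)) else 0) =
      C * (∑ k, w k ^ 2) - C * (2 * (w i ^ 2)) := by
    intro i
    rw [Finset.sum_eq_single i]
    · rw [if_pos rfl, real_inner_self_eq_norm_sq, hv i]
      ring
    · intro j _ hj
      rw [if_neg (Ne.symm hj), mul_zero]
    · simp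
  rw [h4, zero_add]
  simp_rw [h5, Finset.sum_sub_distrib, ← Finset.mul_sum]
  simp
  ring

/-- One dependent family. -/
lemma one_family (v : ι → E) (hv : ∀ i, ‖v i‖ = 1) (w : ι → ℝ) (hw : ∑ i, w i • v i = 0)
    (hw0 : ∃ i, w i ≠ 0) :
    ∃ η : ι → Bool, ‖∑ i, sg (η i) • v i‖ ^ 2 ≤ (Fintype.card ι : ℝ) - 2 := by
  by_contra hcon
  push Not at hcon
  have hW : 0 < (Fintype.card (ι → Bool) : ℝ) * ∑ k, w k ^ 2 := by
    obtain ⟨i, hi⟩ := hw0
    have h1 : 0 < ∑ k, w k ^ 2 :=
      Finset.sum_pos' (fun k _ => sq_nonneg _) ⟨i, Finset.mem_univ _, by positivity⟩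
    have h2 : (0 : ℝ) < (Fintype.card (ι → Bool) : ℝ) := by
      exact_mod_cast Fintype.card_pos
    positivity
  have h1 := weighted v hv w hw
  have h2 := momentW w
  have h3 : ∑ η : ι → Bool, (∑ k, w k * sg (η k)) ^ 2 *
      (‖∑ i, sg (η i) • v i‖ ^ 2 - ((Fintype.card ι : ℝ) - 2)) = 0 := by
    have h4 : ∀ η : ι → Bool, (∑ k, w k * sg (η k)) ^ 2 *
        (‖∑ i, sg (η i) • v i‖ ^ 2 - ((Fintype.card ι : ℝ) - 2)) =
        (∑ k, w k * sg (η k)) ^ 2 * ‖∑ i, sg (η i) • v i‖ ^ 2 -
          (∑ k, w k * sg (η k)) ^ 2 * ((Fintype.card ι : ℝ) - 2) := fun η => by ring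
    rw [Finset.sum_congr rfl fun η _ => h4 η, Finset.sum_sub_distrib, h1, ← Finset.sum_mul, h2]
    ring
  have h4 : ∃ η : ι → Bool, 0 < (∑ k, w k * sg (η k)) ^ 2 := by
    by_contra h
    push Not at h
    have : ∑ η : ι → Bool, (∑ k, w k * sg (η k)) ^ 2 ≤ 0 := Finset.sum_nonpos fun η _ => h η
    linarith
  obtain ⟨η₀, hη₀⟩ := h4
  have h5 : 0 < ∑ η : ι → Bool, (∑ k, w k * sg (η k)) ^ 2 *
      (‖∑ i, sg (η i) • v i‖ ^ 2 - ((Fintype.card ι : ℝ) - 2)) := by
    apply Finset.sum_pos'
    · intro η _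
      have := hcon η
      have h6 : 0 ≤ ‖∑ i, sg (η i) • v i‖ ^ 2 - ((Fintype.card ι : ℝ) - 2) := by linarith
      exact mul_nonneg (sq_nonneg _) h6
    · refine ⟨η₀, Finset.mem_univ _, ?_⟩
      have := hcon η₀
      have h6 : 0 < ‖∑ i, sg (η₀ i) • v i‖ ^ 2 - ((Fintype.card ι : ℝ) - 2) := by linarith
      exact mul_pos hη₀ h6
  linarith

/-! ### Combining groups -/

/-- Signed sums over disjoint sets can be combined with squared norms adding up. -/
lemma combine (v : ι → E) (s t : Finset ι) (hst : Disjoint s t) (a b : ℝ)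
    (hs : ∃ η : ι → Bool, ‖∑ i ∈ s, sg (η i) • v i‖ ^ 2 ≤ a)
    (ht : ∃ η : ι → Bool, ‖∑ i ∈ t, sg (η i) • v i‖ ^ 2 ≤ b) :
    ∃ η : ι → Bool, ‖∑ i ∈ s ∪ t, sg (η i) • v i‖ ^ 2 ≤ a + b := by
  obtain ⟨η, hη⟩ := hs
  obtain ⟨θ, hθ⟩ := ht
  set x := ∑ i ∈ s, sg (η i) • v i with hx
  set y := ∑ i ∈ t, sg (θ i) • v i with hy
  by_cases hxy : inner ℝ x y ≤ 0
  · refine ⟨fun i => if i ∈ s then η i else θ i, ?_⟩
    rw [Finset.sum_union hst]
    have h1 : ∑ i ∈ s, sg (if i ∈ s then η i else θ i) • v i = x := by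
      rw [hx]
      refine Finset.sum_congr rfl fun i hi => ?_
      rw [if_pos hi]
    have h2 : ∑ i ∈ t, sg (if i ∈ s then η i else θ i) • v i = y := by
      rw [hy]
      refine Finset.sum_congr rfl fun i hi => ?_
      rw [if_neg (Finset.disjoint_right.mp hst hi)]
    rw [h1, h2, norm_add_sq_real]
    linarith
  · push Not at hxy
    refine ⟨fun i => if i ∈ s then η i else !(θ i), ?_⟩
    rw [Finset.sum_union hst]
    have h1 : ∑ i ∈ s, sg (if i ∈ s then η i else !(θ i)) • v i = x := by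
      rw [hx]
      refine Finset.sum_congr rfl fun i hi => ?_
      rw [if_pos hi]
    have h2 : ∑ i ∈ t, sg (if i ∈ s then η i else !(θ i)) • v i = -y := by
      rw [hy, ← Finset.sum_neg_distrib]
      refine Finset.sum_congr rfl fun i hi => ?_
      rw [if_neg (Finset.disjoint_right.mp hst hi), sg_not, neg_smul]
    rw [h1, h2, norm_add_sq_real, inner_neg_right, norm_neg]
    linarith

/-- Beck's bound by one-at-a-time signs. -/
lemma singles (v : ι → E) (hv : ∀ i, ‖v i‖ = 1) (s : Finset ι) :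
    ∃ η : ι → Bool, ‖∑ i ∈ s, sg (η i) • v i‖ ^ 2 ≤ (s.card : ℝ) := by
  induction s using Finset.induction_on with
  | empty => exact ⟨fun _ => true, by simp⟩
  | insert i s his ih =>
    have h1 : ∃ η : ι → Bool, ‖∑ j ∈ ({i} : Finset ι), sg (η j) • v j‖ ^ 2 ≤ 1 :=
      ⟨fun _ => true, by simp [sg, hv]⟩
    have hd : Disjoint ({i} : Finset ι) s := by simpa using his
    obtain ⟨η, hη⟩ := combine v {i} s hd _ _ h1 ih
    refine ⟨η, ?_⟩
    rw [Finset.insert_eq, Finset.card_union_of_disjoint hd]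
    push_cast
    simpa using hη

/-- the one-family bound for a Finset of indices -/
lemma one_set (v : ι → E) (hv : ∀ i, ‖v i‖ = 1) (s : Finset ι)
    (hs : ¬ LinearIndependent ℝ (fun i : s => v i)) :
    ∃ η : ι → Bool, ‖∑ i ∈ s, sg (η i) • v i‖ ^ 2 ≤ (s.card : ℝ) - 2 := by
  rw [Fintype.not_linearIndependent_iff] at hs
  obtain ⟨g, hg, i₀, hi₀⟩ := hs
  obtain ⟨η, hη⟩ := one_family (fun i : s => v i) (fun i => hv i) g hg ⟨i₀, hi₀⟩
  refine ⟨fun i => if h : i ∈ s then η ⟨i, h⟩ else true, ?_⟩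
  have h1 : ∑ i ∈ s, sg (if h : i ∈ s then η ⟨i, h⟩ else true) • v i =
      ∑ i : s, sg (η i) • v i := by
    rw [← Finset.sum_coe_sort s]
    refine Finset.sum_congr rfl fun i _ => ?_
    simp
  rw [h1]
  simpa using hη

/-- `r` disjoint dependent families save `2 r`. -/
lemma many (v : ι → E) (hv : ∀ i, ‖v i‖ = 1) {r : ℕ} (A : Fin r → Finset ι)
    (hA : ∀ a b, a ≠ b → Disjoint (A a) (A b))
    (hdep : ∀ a, ¬ LinearIndependent ℝ (fun i : A a => v i)) :
    ∃ η : ι → Bool, ‖∑ i, sg (η i) • v i‖ ^ 2 ≤ (Fintype.card ι : ℝ) - 2 * r := by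
  have key : ∀ T : Finset (Fin r), ∃ η : ι → Bool,
      ‖∑ i ∈ T.biUnion A, sg (η i) • v i‖ ^ 2 ≤ ((T.biUnion A).card : ℝ) - 2 * (T.card : ℝ) := by
    intro T
    induction T using Finset.induction_on with
    | empty => exact ⟨fun _ => true, by simp⟩
    | insert a T haT ih =>
      have hd : Disjoint (A a) (T.biUnion A) := by
        rw [Finset.disjoint_biUnion_right]
        intro b hb
        exact hA a b (fun h => haT (h ▸ hb))
      obtain ⟨η, hη⟩ := combine v (A a) (T.biUnion A) hd _ _ (one_set v hv (A a) (hdep a)) ih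
      refine ⟨η, ?_⟩
      rw [Finset.biUnion_insert, Finset.card_union_of_disjoint hd,
        Finset.card_insert_of_notMem haT]
      push_cast
      linarith
  set U := (Finset.univ : Finset (Fin r)).biUnion A with hU
  have hd : Disjoint U Uᶜ := disjoint_compl_right
  obtain ⟨η, hη⟩ := combine v U Uᶜ hd _ _ (key Finset.univ) (singles v hv Uᶜ)
  refine ⟨η, ?_⟩
  rw [Finset.union_compl] at hη
  have hc : (U.card : ℝ) + (Uᶜ.card : ℝ) = (Fintype.card ι : ℝ) := by
    exact_mod_cast Finset.card_add_card_compl U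
  simp only [Finset.card_univ, Fintype.card_fin] at hη
  rw [← hU] at hη
  linarith

/-- **Balancing unit vectors.** (1) If unit vectors `v 0, …, v (n-1)` in `ℝ^d` contain `r` pairwise
disjoint linearly dependent subfamilies, some signed sum has squared norm at most `n - 2 r`.
(2) The parity conjecture holds for all `d ≥ 1` and all `n ≤ d + 1`.
(3) It holds for all `n` of parity opposite to `d` whenever the vectors contain `r` pairwise disjoint
linearly dependent subfamilies with `n ≤ d - 1 + 2 r`. -/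
theorem result :
    (∀ (d n r : ℕ) (v : Fin n → EuclideanSpace ℝ (Fin d)) (A : Fin r → Finset (Fin n)),
      (∀ i, ‖v i‖ = 1) → (∀ a b, a ≠ b → Disjoint (A a) (A b)) →
      (∀ a, ¬ LinearIndependent ℝ (fun i : A a => v i)) →
      ∃ η : Fin n → ℝ, (∀ i, η i = 1 ∨ η i = -1) ∧
        ‖∑ i, η i • v i‖ ^ 2 ≤ (n : ℝ) - 2 * (r : ℝ)) ∧
    (∀ (d n : ℕ), 1 ≤ d → n % 2 ≠ d % 2 → n ≤ d + 1 →
      ∀ v : Fin n → EuclideanSpace ℝ (Fin d), (∀ i, ‖v i‖ = 1) →
      ∃ η : Fin n → ℝ, (∀ i, η i = 1 ∨ η i = -1) ∧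
        ‖∑ i, η i • v i‖ ≤ √((d : ℝ) - 1)) ∧
    (∀ (d n r : ℕ), 1 ≤ d → n + 1 ≤ d + 2 * r →
      ∀ (v : Fin n → EuclideanSpace ℝ (Fin d)) (A : Fin r → Finset (Fin n)),
      (∀ i, ‖v i‖ = 1) → (∀ a b, a ≠ b → Disjoint (A a) (A b)) →
      (∀ a, ¬ LinearIndependent ℝ (fun i : A a => v i)) →
      ∃ η : Fin n → ℝ, (∀ i, η i = 1 ∨ η i = -1) ∧
        ‖∑ i, η i • v i‖ ≤ √((d : ℝ) - 1)) := by
  have h1 : ∀ (d n r : ℕ) (v : Fin n → EuclideanSpace ℝ (Fin d)) (A : Fin r → Finset (Fin n)),
      (∀ i, ‖v i‖ = 1) → (∀ a b, a ≠ b → Disjoint (A a) (A b)) →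
      (∀ a, ¬ LinearIndependent ℝ (fun i : A a => v i)) →
      ∃ η : Fin n → ℝ, (∀ i, η i = 1 ∨ η i = -1) ∧
        ‖∑ i, η i • v i‖ ^ 2 ≤ (n : ℝ) - 2 * (r : ℝ) := by
    intro d n r v A hv hA hdep
    obtain ⟨η, hη⟩ := many v hv A hA hdep
    refine ⟨fun i => sg (η i), fun i => ?_, ?_⟩
    · show sg (η i) = 1 ∨ sg (η i) = -1
      unfold sg
      split_ifs
      · exact Or.inl rfl
      · exact Or.inr rfl
    · simpa using hη
  have h3 : ∀ (d n r : ℕ), 1 ≤ d → n + 1 ≤ d + 2 * r →
      ∀ (v : Fin n → EuclideanSpace ℝ (Fin d)) (A : Fin r → Finset (Fin n)),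
      (∀ i, ‖v i‖ = 1) → (∀ a b, a ≠ b → Disjoint (A a) (A b)) →
      (∀ a, ¬ LinearIndependent ℝ (fun i : A a => v i)) →
      ∃ η : Fin n → ℝ, (∀ i, η i = 1 ∨ η i = -1) ∧
        ‖∑ i, η i • v i‖ ≤ √((d : ℝ) - 1) := by
    intro d n r hd hn v A hv hA hdep
    obtain ⟨η, hη, hb⟩ := h1 d n r v A hv hA hdep
    refine ⟨η, hη, ?_⟩
    apply Real.le_sqrt_of_sq_le
    have : (n : ℝ) + 1 ≤ d + 2 * r := by exact_mod_cast hn
    linarith
  refine ⟨h1, ?_, h3⟩
  intro d n hd hpar hn v hv
  by_cases h : n + 1 ≤ d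
  · exact h3 d n 0 hd (by omega) v (fun a => a.elim0) hv (fun a => a.elim0) (fun a => a.elim0)
  · have hn' : n = d + 1 := by omega
    refine h3 d n 1 hd (by omega) v (fun _ => Finset.univ) hv ?_ ?_
    · intro a b hab
      exact absurd (Subsingleton.elim a b) hab
    · intro _ hli
      have hc := hli.fintype_card_le_finrank
      simp at hc
      omega

end Pool.Agent.Results.MP_1be6c9_co.DependentFamilies
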